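import Mathlib

set_option autoImplicit false

/-!
# The conjugate linear involution of a free complex algebra, and the bases of the Vámos matroid
-/

namespace Pool.Agent.W5h94.Vamos

open Finset

/-- The ring homomorphism from the free complex algebra on `X` to `A` which is `f` on the scalars
and `g` on the generators. -/
noncomputable def liftRing {A : Type*} [Ring A] {X : Type*} (f : ℂ →+* A)
    (hf : ∀ c a, f c * a = a * f c) (g : X → A) : FreeAlgebra ℂ X →+* A :=
  letI := f.toAlgebra' hf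
  (FreeAlgebra.lift ℂ g : FreeAlgebra ℂ X →ₐ[ℂ] A).toRingHom

theorem liftRing_algebraMap {A : Type*} [Ring A] {X : Type*} (f : ℂ →+* A)
    (hf : ∀ c a, f c * a = a * f c) (g : X → A) (c : ℂ) :
    liftRing f hf g (algebraMap ℂ (FreeAlgebra ℂ X) c) = f c := by
  let := f.toAlgebra' hf
  exact (FreeAlgebra.lift ℂ g : FreeAlgebra ℂ X →ₐ[ℂ] A).commutes c

theorem liftRing_ι {A : Type*} [Ring A] {X : Type*} (f : ℂ →+* A)
    (hf : ∀ c a, f c * a = a * f c) (g : X → A) (x : X) :
    liftRing f hf g (FreeAlgebra.ι ℂ x) = g x := by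
  let := f.toAlgebra' hf
  exact FreeAlgebra.lift_ι_apply (R := ℂ) g x

variable {X : Type*}

/-- The involution of the free complex algebra on `X`: the map which is additive, reverses
products, conjugates the scalars and fixes the generators. -/
noncomputable def cstar (x : FreeAlgebra ℂ X) : FreeAlgebra ℂ X :=
  MulOpposite.unop (liftRing ((algebraMap ℂ (FreeAlgebra ℂ X)ᵐᵒᵖ).comp (starRingEnd ℂ))
    (fun c a => Algebra.commutes (starRingEnd ℂ c) a)
    (fun i => MulOpposite.op (FreeAlgebra.ι ℂ i)) x)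

theorem cstar_add (x y : FreeAlgebra ℂ X) : cstar (x + y) = cstar x + cstar y := by
  simp [cstar]

theorem cstar_mul (x y : FreeAlgebra ℂ X) : cstar (x * y) = cstar y * cstar x := by
  simp [cstar]

theorem cstar_algebraMap (c : ℂ) : cstar (algebraMap ℂ (FreeAlgebra ℂ X) c) =
    algebraMap ℂ (FreeAlgebra ℂ X) (starRingEnd ℂ c) := by
  rw [cstar, liftRing_algebraMap]
  rfl

theorem cstar_ι (i : X) : cstar (FreeAlgebra.ι ℂ i) = FreeAlgebra.ι ℂ i := by
  rw [cstar, liftRing_ι]
  rfl

theorem cstar_cstar (x : FreeAlgebra ℂ X) : cstar (cstar x) = x := by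
  induction x using FreeAlgebra.induction with
  | grade0 c => rw [cstar_algebraMap, cstar_algebraMap]; simp
  | grade1 i => rw [cstar_ι, cstar_ι]
  | mul a b ha hb => rw [cstar_mul, cstar_mul, ha, hb]
  | add a b ha hb => rw [cstar_add, cstar_add, ha, hb]

theorem cstar_zero : cstar (0 : FreeAlgebra ℂ X) = 0 := by
  simp [cstar]

theorem cstar_one : cstar (1 : FreeAlgebra ℂ X) = 1 := by
  simp [cstar]

theorem cstar_neg (x : FreeAlgebra ℂ X) : cstar (-x) = -cstar x := by
  simp [cstar]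

theorem cstar_sub (x y : FreeAlgebra ℂ X) : cstar (x - y) = cstar x - cstar y := by
  simp [cstar]

theorem cstar_smul (r : ℝ) (x : FreeAlgebra ℂ X) : cstar (r • x) = r • cstar x := by
  have h : algebraMap ℝ (FreeAlgebra ℂ X) r = algebraMap ℂ (FreeAlgebra ℂ X) (r : ℂ) := by
    rw [IsScalarTower.algebraMap_apply ℝ ℂ (FreeAlgebra ℂ X)]
    rfl
  rw [Algebra.smul_def, Algebra.smul_def, h, cstar_mul, cstar_algebraMap, Complex.conj_ofReal,
    Algebra.commutes]

theorem cstar_sum {ι' : Type*} (s : Finset ι') (f : ι' → FreeAlgebra ℂ X) :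
    cstar (∑ i ∈ s, f i) = ∑ i ∈ s, cstar (f i) := by
  classical
  induction s using Finset.induction_on with
  | empty => simp [cstar_zero]
  | insert a s ha ih => rw [Finset.sum_insert ha, Finset.sum_insert ha, cstar_add, ih]

theorem cstar_pow (x : FreeAlgebra ℂ X) (hx : cstar x = x) (n : ℕ) : cstar (x ^ n) = x ^ n := by
  induction n with
  | zero => rw [pow_zero, cstar_one]
  | succ n ih => rw [pow_succ, cstar_mul, ih, hx, ← pow_succ', pow_succ]

theorem cstar_aeval (x : FreeAlgebra ℂ X) (hx : cstar x = x) (p : Polynomial ℝ) :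
    cstar (Polynomial.aeval x p) = Polynomial.aeval x p := by
  induction p using Polynomial.induction_on' with
  | add p q hp hq => rw [map_add, cstar_add, hp, hq]
  | monomial n r =>
    rw [Polynomial.aeval_monomial, ← Algebra.smul_def, cstar_smul, cstar_pow x hx]

/-- The bases of the Vámos matroid on `{0, ..., 7}`. -/
def bases : Finset (Finset (Fin 8)) :=
  powersetCard 4 univ \ {{0, 1, 2, 3}, {0, 1, 4, 5}, {0, 1, 6, 7}, {2, 3, 4, 5}, {2, 3, 6, 7}}

theorem sum_bases {R : Type*} [CommRing R] (p q r s : R) :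
    ∑ B ∈ bases, ∏ i ∈ B, (![p, p, q, q, r, r, s, s] : Fin 8 → R) i =
      4 * (p + q + r + s) * (p * q * r + p * q * s + p * r * s + q * r * s) +
        r ^ 2 * s ^ 2 := by
  have h1 : ({{0, 1, 2, 3}, {0, 1, 4, 5}, {0, 1, 6, 7}, {2, 3, 4, 5}, {2, 3, 6, 7}} :
      Finset (Finset (Fin 8))) ⊆ powersetCard 4 univ := by
    decide
  have h2 := Finset.sum_sdiff
    (f := fun B => ∏ i ∈ B, (![p, p, q, q, r, r, s, s] : Fin 8 → R) i) h1
  have h3 : ∑ B ∈ powersetCard 4 univ, ∏ i ∈ B, (![p, p, q, q, r, r, s, s] : Fin 8 → R) i =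
      ({p, p, q, q, r, r, s, s} : Multiset R).esymm 4 := by
    rw [← Finset.esymm_map_val]
    rfl
  have h4 : ({p, p, q, q, r, r, s, s} : Multiset R).esymm 4 =
      4 * (p + q + r + s) * (p * q * r + p * q * s + p * r * s + q * r * s) + r ^ 2 * s ^ 2 +
        (p ^ 2 * q ^ 2 + p ^ 2 * r ^ 2 + p ^ 2 * s ^ 2 + q ^ 2 * r ^ 2 + q ^ 2 * s ^ 2) := by
    have h0 : Multiset.powersetCard 1 ({s} : Multiset R) = {{s}} := by
      rw [← Multiset.cons_zero, Multiset.powersetCard_cons, Multiset.powersetCard_zero_left,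
        show Multiset.powersetCard 1 (0 : Multiset R) = 0 from rfl]
      simp
    simp only [Multiset.esymm, Multiset.insert_eq_cons]
    simp [Multiset.powersetCard_cons, h0]
    ring
  have h5 : ∑ B ∈ ({{0, 1, 2, 3}, {0, 1, 4, 5}, {0, 1, 6, 7}, {2, 3, 4, 5}, {2, 3, 6, 7}} :
      Finset (Finset (Fin 8))), ∏ i ∈ B, (![p, p, q, q, r, r, s, s] : Fin 8 → R) i =
      p ^ 2 * q ^ 2 + p ^ 2 * r ^ 2 + p ^ 2 * s ^ 2 + q ^ 2 * r ^ 2 + q ^ 2 * s ^ 2 := by
    rw [Finset.sum_insert (by decide), Finset.sum_insert (by decide),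
      Finset.sum_insert (by decide), Finset.sum_insert (by decide), Finset.sum_singleton]
    simp
    ring
  rw [h3, h4, h5] at h2
  exact add_right_cancel h2

end Pool.Agent.W5h94.Vamos
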