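import Pool.Agent.W5h94.Vamos.Abs
import Pool.Agent.W5h94.Vamos.Star

set_option autoImplicit false

/-!
# `-1` is a sum of hermitian squares in the generalized Clifford algebra of the Vámos polynomial
-/

namespace Pool.Agent.W5h94.Vamos

open FreeAlgebra (ι)

/-- The Vámos polynomial. -/
noncomputable def vamos : MvPolynomial (Fin 8) ℝ := ∑ B ∈ bases, ∏ i ∈ B, MvPolynomial.X i

/-- The univariate polynomial `h(a - t e)` in `t`. -/
noncomputable def charPoly {n : ℕ} (h : MvPolynomial (Fin n) ℝ) (e a : Fin n → ℝ) :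
    Polynomial ℝ :=
  MvPolynomial.aeval (fun i => Polynomial.C (a i) - Polynomial.C (e i) * Polynomial.X) h

/-- The element `a₁ z₁ + ... + aₙ zₙ` of `ℂ⟨z⟩`. -/
noncomputable def lin {n : ℕ} (a : Fin n → ℝ) : FreeAlgebra ℂ (Fin n) := ∑ i, a i • ι ℂ i

/-- The two-sided ideal `J_e(h)` of `ℂ⟨z⟩`. -/
noncomputable def cliffordIdeal {n : ℕ} (h : MvPolynomial (Fin n) ℝ) (e : Fin n → ℝ) :
    TwoSidedIdeal (FreeAlgebra ℂ (Fin n)) :=
  TwoSidedIdeal.span
    ({x | ∃ a : Fin n → ℝ, x = Polynomial.aeval (lin a) (charPoly h e a)} ∪ {1 - lin e})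

theorem cstar_lin {n : ℕ} (a : Fin n → ℝ) : cstar (lin a) = lin a := by
  rw [lin, cstar_sum]
  exact Finset.sum_congr rfl fun i _ => by rw [cstar_smul, cstar_ι]

theorem cstar_mem {n : ℕ} (h : MvPolynomial (Fin n) ℝ) (e : Fin n → ℝ)
    {x : FreeAlgebra ℂ (Fin n)} (hx : x ∈ cliffordIdeal h e) : cstar x ∈ cliffordIdeal h e := by
  unfold cliffordIdeal at hx
  induction hx using TwoSidedIdeal.span_induction with
  | mem x hx =>
    rcases hx with ⟨a, rfl⟩ | hx
    · rw [cstar_aeval _ (cstar_lin a)]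
      exact TwoSidedIdeal.subset_span (Or.inl ⟨a, rfl⟩)
    · rw [Set.mem_singleton_iff] at hx
      rw [hx, cstar_sub, cstar_one, cstar_lin]
      exact TwoSidedIdeal.subset_span (Or.inr rfl)
  | zero => rw [cstar_zero]; exact TwoSidedIdeal.zero_mem _
  | add x y _ _ hx hy => rw [cstar_add]; exact TwoSidedIdeal.add_mem _ hx hy
  | neg x _ hx => rw [cstar_neg]; exact TwoSidedIdeal.neg_mem _ hx
  | left_absorb a x _ hx => rw [cstar_mul]; exact TwoSidedIdeal.mul_mem_right _ _ _ hx
  | right_absorb b x _ hx => rw [cstar_mul]; exact TwoSidedIdeal.mul_mem_left _ _ _ hx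

/-- the four elements `z₁ + z₂`, `z₃ + z₄`, `z₅ + z₆`, `z₇ + z₈` -/
noncomputable def gens : Fin 4 → FreeAlgebra ℂ (Fin 8) :=
  ![ι ℂ 0 + ι ℂ 1, ι ℂ 2 + ι ℂ 3, ι ℂ 4 + ι ℂ 5, ι ℂ 6 + ι ℂ 7]

theorem rsmul_add (r : ℝ) (x y : FreeAlgebra ℂ (Fin 8)) : r • (x + y) = r • x + r • y :=
  smul_add r x y

theorem rone_smul (x : FreeAlgebra ℂ (Fin 8)) : (1 : ℝ) • x = x :=
  one_smul ℝ x

theorem lin_eq (p q r s : ℝ) : lin ![p, p, q, q, r, r, s, s] =
    p • gens 0 + q • gens 1 + r • gens 2 + s • gens 3 := by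
  simp only [lin, Fin.sum_univ_eight, gens]
  simp [rsmul_add]
  abel

theorem charPoly_eq (a b c d : ℝ) : charPoly vamos 1 ![a, a, b, b, c, c, d, d] =
    Polynomial.C (4 * (a + b + c + d) * (a * b * c + a * b * d + a * c * d + b * c * d) +
      c ^ 2 * d ^ 2) +
    Polynomial.C (-8 * (a + b + c + d) * (a * b + a * c + a * d + b * c + b * d + c * d) -
      16 * (a * b * c + a * b * d + a * c * d + b * c * d) - 2 * c * d * (c + d)) *
      Polynomial.X +
    Polynomial.C (12 * (a + b + c + d) ^ 2 +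
      32 * (a * b + a * c + a * d + b * c + b * d + c * d) +
      (c + d) ^ 2 + 2 * c * d) * (Polynomial.X * Polynomial.X) +
    Polynomial.C (-64 * (a + b + c + d) - 2 * (c + d)) *
      (Polynomial.X * (Polynomial.X * Polynomial.X)) +
    Polynomial.C 65 * (Polynomial.X * (Polynomial.X * (Polynomial.X * Polynomial.X))) := by
  have h1 := sum_bases (Polynomial.C a - Polynomial.X) (Polynomial.C b - Polynomial.X)
    (Polynomial.C c - Polynomial.X) (Polynomial.C d - Polynomial.X)
  have h2 : charPoly vamos 1 ![a, a, b, b, c, c, d, d] =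
      ∑ B ∈ bases, ∏ i ∈ B, (![Polynomial.C a - Polynomial.X, Polynomial.C a - Polynomial.X,
        Polynomial.C b - Polynomial.X, Polynomial.C b - Polynomial.X,
        Polynomial.C c - Polynomial.X, Polynomial.C c - Polynomial.X,
        Polynomial.C d - Polynomial.X, Polynomial.C d - Polynomial.X] :
        Fin 8 → Polynomial ℝ) i := by
    rw [charPoly, vamos, map_sum]
    refine Finset.sum_congr rfl fun B _ => ?_
    rw [map_prod]
    refine Finset.prod_congr rfl fun i _ => ?_
    rw [MvPolynomial.aeval_X]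
    fin_cases i <;> simp
  rw [h2, h1]
  simp only [map_add, map_sub, map_mul, map_neg, map_pow, map_ofNat]
  ring

theorem rel_mem (a b c d : ℝ) : rel a b c d (a • gens 0 + b • gens 1 + c • gens 2 + d • gens 3) ∈
    cliffordIdeal vamos 1 := by
  rw [← lin_eq]
  have h1 : Polynomial.aeval (lin ![a, a, b, b, c, c, d, d])
      (charPoly vamos 1 ![a, a, b, b, c, c, d, d]) ∈ cliffordIdeal vamos 1 :=
    TwoSidedIdeal.subset_span (Or.inl ⟨_, rfl⟩)
  rw [charPoly_eq] at h1
  convert h1 using 1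
  simp only [map_add, map_mul (Polynomial.aeval _), Polynomial.aeval_C, Polynomial.aeval_X,
    rel, Algebra.smul_def, mul_one]

/-- the map from the real free algebra on 4 generators -/
noncomputable def phi : FreeAlgebra ℝ (Fin 4) →ₐ[ℝ] FreeAlgebra ℂ (Fin 8) :=
  FreeAlgebra.lift ℝ gens

theorem phi_ι (i : Fin 4) : phi (ι ℝ i) = gens i := FreeAlgebra.lift_ι_apply _ _

/-- the standard involution of the real free algebra -/
noncomputable def sigma : Inv (FreeAlgebra ℝ (Fin 4)) where
  st := star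
  add := star_add
  mul := star_mul
  smul := fun r x => by
    rw [Algebra.smul_def, star_mul, FreeAlgebra.star_algebraMap, Algebra.smul_def,
      Algebra.commutes]
  inv := star_star

theorem cstar_gens (i : Fin 4) : cstar (gens i) = gens i := by
  fin_cases i <;> simp [gens, cstar_add, cstar_ι]

theorem phi_star (x : FreeAlgebra ℝ (Fin 4)) : cstar (phi x) = phi (star x) := by
  induction x using FreeAlgebra.induction with
  | grade0 r =>
    rw [FreeAlgebra.star_algebraMap, AlgHom.commutes, Algebra.algebraMap_eq_smul_one, cstar_smul,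
      cstar_one]
  | grade1 i => rw [FreeAlgebra.star_ι, phi_ι, cstar_gens]
  | mul a b ha hb => rw [star_mul, map_mul, map_mul, cstar_mul, ha, hb]
  | add a b ha hb => rw [star_add, map_add, map_add, cstar_add, ha, hb]

/-- the preimage of the ideal -/
noncomputable def J4 : TwoSidedIdeal (FreeAlgebra ℝ (Fin 4)) :=
  (cliffordIdeal vamos 1).comap phi

theorem mem_J4 {x : FreeAlgebra ℝ (Fin 4)} : x ∈ J4 ↔ phi x ∈ cliffordIdeal vamos 1 :=
  TwoSidedIdeal.mem_comap _

theorem J4_star (x : FreeAlgebra ℝ (Fin 4)) (hx : x ∈ J4) : sigma.st x ∈ J4 := by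
  rw [mem_J4] at hx ⊢
  change phi (star x) ∈ _
  rw [← phi_star]
  exact cstar_mem _ _ hx

theorem J4_rel (a b c d : ℝ) : rel a b c d (a • ι ℝ (0 : Fin 4) + b • ι ℝ 1 + c • ι ℝ 2 +
    d • ι ℝ 3) ∈ J4 := by
  rw [mem_J4]
  convert rel_mem a b c d using 1
  simp only [rel, map_add, map_mul, map_smul, phi_ι, map_one]

theorem J4_sum : ι ℝ (0 : Fin 4) + ι ℝ 1 + ι ℝ 2 + ι ℝ 3 - 1 ∈ J4 := by
  rw [mem_J4]
  have h1 : 1 - lin (1 : Fin 8 → ℝ) ∈ cliffordIdeal vamos 1 :=
    TwoSidedIdeal.subset_span (Or.inr rfl)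
  have h2 : (1 : Fin 8 → ℝ) = ![1, 1, 1, 1, 1, 1, 1, 1] := by
    ext i
    fin_cases i <;> rfl
  have h3 := lin_eq 1 1 1 1
  rw [← h2, rone_smul, rone_smul, rone_smul, rone_smul] at h3
  rw [h3] at h1
  have h4 := TwoSidedIdeal.neg_mem _ h1
  convert h4 using 1
  simp only [map_add, map_sub, phi_ι, map_one]
  abel

theorem J4_bd (x : FreeAlgebra ℝ (Fin 4)) : Bd sigma J4 x := by
  induction x using FreeAlgebra.induction with
  | grade0 r => exact Bd.scalar r
  | grade1 i =>
    have hs : ∀ i : Fin 4, sigma.st (ι ℝ i) = ι ℝ i := fun i => FreeAlgebra.star_ι i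
    fin_cases i
    · refine Bd.of_quartic (k2 := 12) (k3 := 64) (hs 0) (by norm_num) (by norm_num) ?_
      have h1 := J4_rel 1 0 0 0
      convert h1 using 1
      simp only [rel, one_smul, zero_smul, add_zero]
      norm_num
      abel
    · refine Bd.of_quartic (k2 := 12) (k3 := 64) (hs 1) (by norm_num) (by norm_num) ?_
      have h1 := J4_rel 0 1 0 0
      convert h1 using 1
      simp only [rel, one_smul, zero_smul, add_zero, zero_add]
      norm_num
      abel
    · refine Bd.of_quartic (k2 := 13) (k3 := 66) (hs 2) (by norm_num) (by norm_num) ?_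
      have h1 := J4_rel 0 0 1 0
      convert h1 using 1
      simp only [rel, one_smul, zero_smul, add_zero, zero_add]
      norm_num
      abel
    · refine Bd.of_quartic (k2 := 13) (k3 := 66) (hs 3) (by norm_num) (by norm_num) ?_
      have h1 := J4_rel 0 0 0 1
      convert h1 using 1
      simp only [rel, one_smul, zero_smul, add_zero, zero_add]
      norm_num
      abel
  | mul a b ha hb => exact ha.mul hb
  | add a b ha hb => exact ha.add hb

theorem sos4 : SOS sigma J4 (-1) :=
  sos_of_rel J4_star J4_bd (ι ℝ 0) (ι ℝ 1) (ι ℝ 2) (ι ℝ 3) (FreeAlgebra.star_ι _)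
    (FreeAlgebra.star_ι _) (FreeAlgebra.star_ι _) (FreeAlgebra.star_ι _) J4_sum J4_rel

theorem phi_list (l : List (FreeAlgebra ℝ (Fin 4))) :
    phi ((l.map fun b => sigma.st b * b).sum) =
      ((l.map phi).map fun b => cstar b * b).sum := by
  induction l with
  | nil => simp
  | cons b l ih =>
    simp only [List.map_cons, List.sum_cons, map_add, ih, map_mul, phi_star]
    rfl

theorem main : ∃ m : ℕ, 1 ≤ m ∧ ∃ b : Fin m → FreeAlgebra ℂ (Fin 8),
    -1 - ∑ i, cstar (b i) * b i ∈ cliffordIdeal vamos 1 := by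
  obtain ⟨l, hl⟩ := sos4
  rw [mem_J4, map_sub, phi_list, map_neg, map_one] at hl
  refine ⟨(0 :: l.map phi).length, by simp, fun i => (0 :: l.map phi).get i, ?_⟩
  have h1 : ∑ i : Fin (0 :: l.map phi).length,
      cstar ((0 :: l.map phi).get i) * (0 :: l.map phi).get i =
      ((0 :: l.map phi).map fun b => cstar b * b).sum := by
    rw [← List.sum_ofFn]
    congr 1
    exact List.ofFn_getElem_eq_map (0 :: l.map phi) fun b => cstar b * b
  rw [h1]
  simpa using hl

end Pool.Agent.W5h94.Vamos
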