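import Pool.Agent.W5h94.Vamos.Gns

set_option autoImplicit false

/-!
# `-1` is a sum of squares in every real `*`-algebra with the Vámos relations
-/

namespace Pool.Agent.W5h94.Vamos

variable {F : Type*} [Ring F] [Algebra ℝ F] {σ : Inv F} {J : TwoSidedIdeal F}

/-- the quartic relation at `(a, b, c, d)` -/
def rel (a b c d : ℝ) (T : F) : F :=
  (4 * (a + b + c + d) * (a * b * c + a * b * d + a * c * d + b * c * d) +
    c ^ 2 * d ^ 2) • (1 : F) +
  (-8 * (a + b + c + d) * (a * b + a * c + a * d + b * c + b * d + c * d) -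
    16 * (a * b * c + a * b * d + a * c * d + b * c * d) - 2 * c * d * (c + d)) • T +
  (12 * (a + b + c + d) ^ 2 + 32 * (a * b + a * c + a * d + b * c + b * d + c * d) +
    (c + d) ^ 2 + 2 * c * d) • (T * T) +
  (-64 * (a + b + c + d) - 2 * (c + d)) • (T * (T * T)) +
  (65 : ℝ) • (T * (T * (T * T)))

theorem sos_of_rel (hJ : ∀ x ∈ J, σ.st x ∈ J) (hb : ∀ x, Bd σ J x) (A B C D : F)
    (hA : σ.st A = A) (hB : σ.st B = B) (hC : σ.st C = C) (hD : σ.st D = D)
    (hsum : A + B + C + D - 1 ∈ J)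
    (hrel : ∀ a b c d : ℝ, rel a b c d (a • A + b • B + c • C + d • D) ∈ J) :
    SOS σ J (-1) := by
  by_contra h1
  obtain ⟨L, hL1, hL, hLJ, hsym⟩ := exists_functional hJ hb h1
  have key := no_rep (β := ip L hL hsym) (A := op L hL hsym A) (B := op L hL hsym B)
    (C := op L hL hsym C) (D := op L hL hsym D) (op_symm L hL hsym A hA)
    (op_symm L hL hsym B hB) (op_symm L hL hsym C hC) (op_symm L hL hsym D hD)
    (by
      intro v
      have h2 := op_mem L hL hsym hLJ hsum v
      have h3 : op L hL hsym (A + B + C + D) v = v := by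
        have : A + B + C + D = (A + B + C + D - 1) + 1 := by abel
        rw [this, op_add, LinearMap.add_apply, h2, op_one, zero_add]
      rw [op_add, op_add, op_add] at h3
      exact h3)
    (by
      intro a b c d T hT v
      have hT' : T = op L hL hsym (a • A + b • B + c • C + d • D) := by
        rw [hT, op_add, op_add, op_add, op_smul, op_smul, op_smul, op_smul]
      have h2 := op_mem L hL hsym hLJ (hrel a b c d) v
      rw [rel, op_add, op_add, op_add, op_add, LinearMap.add_apply, LinearMap.add_apply,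
        LinearMap.add_apply, LinearMap.add_apply] at h2
      rw [op_smul, op_smul, op_smul, op_smul, op_smul] at h2
      simp only [LinearMap.smul_apply, op_mul, op_one] at h2
      rw [← hT'] at h2
      exact h2)
  have h3 := key (Submodule.Quotient.mk 1)
  rw [Submodule.Quotient.mk_eq_zero, mem_nul, σ.one, one_mul, hL1] at h3
  exact one_ne_zero h3

/-- A self-adjoint element annihilated by `x² (65 x² - k₃ x + k₂)` is bounded. -/
theorem Bd.of_quartic {x : F} (hx : σ.st x = x) {k2 k3 : ℝ}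
    (hk : 0 ≤ 1 + k2 / 65 - (k3 / 130) ^ 2 - 1 / 4) (hk' : 0 ≤ 2 - (k3 / 65) ^ 2)
    (h : k2 • (x * x) - k3 • (x * (x * x)) + (65 : ℝ) • (x * (x * (x * x))) ∈ J) :
    Bd σ J x := by
  refine ⟨3, by norm_num, ?_⟩
  have e1 : (3 : ℝ) • (1 : F) - σ.st x * x =
      σ.st (x * x - (k3 / 130) • x - 1) * (x * x - (k3 / 130) • x - 1) +
      σ.st ((1 / 2 : ℝ) • x - (k3 / 65) • 1) * ((1 / 2 : ℝ) • x - (k3 / 65) • 1) +
      (1 + k2 / 65 - (k3 / 130) ^ 2 - 1 / 4) • (σ.st x * x) +
      (2 - (k3 / 65) ^ 2) • (1 : F) +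
      (-(1 / 65) : ℝ) • (k2 • (x * x) - k3 • (x * (x * x)) +
        (65 : ℝ) • (x * (x * (x * x)))) := by
    rw [σ.sub, σ.sub, σ.sub, σ.mul, σ.smul, σ.smul, σ.smul, σ.one, hx]
    simp only [sub_mul, mul_sub, smul_mul_assoc, mul_smul_comm, one_mul, mul_one, mul_assoc,
      smul_sub, smul_add, smul_smul]
    module
  rw [e1]
  refine SOS.add (SOS.add (SOS.add (SOS.add (SOS.sq _) (SOS.sq _)) (SOS.smul (SOS.sq _) hk))
    (SOS.const hk')) (SOS.of_mem (smul_mem_J _ h))

end Pool.Agent.W5h94.Vamos
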