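import Pool.Agent.W5h94.Vamos.Rep

set_option autoImplicit false

/-!
# Positive functionals and representations

If `-1` is not a sum of hermitian squares modulo a `*`-ideal `J` of a real `*`-algebra all of whose
elements are bounded, then there is a representation on a nonzero real inner product space.
-/

namespace Pool.Agent.W5h94.Vamos

/-- a real linear involution -/
structure Inv (F : Type*) [Ring F] [Algebra ℝ F] where
  /-- the involution -/
  st : F → F
  add : ∀ x y, st (x + y) = st x + st y
  mul : ∀ x y, st (x * y) = st y * st x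
  smul : ∀ (r : ℝ) (x : F), st (r • x) = r • st x
  inv : ∀ x, st (st x) = x

variable {F : Type*} [Ring F] [Algebra ℝ F] (σ : Inv F) (J : TwoSidedIdeal F)

namespace Inv

theorem one : σ.st 1 = 1 := by
  have h1 := σ.mul (σ.st 1) 1
  rw [mul_one, σ.inv, mul_one] at h1
  exact h1.symm

theorem zero : σ.st 0 = 0 := by
  have := σ.smul 0 0
  simpa using this

theorem neg (x : F) : σ.st (-x) = -σ.st x := by
  have := σ.smul (-1) x
  simpa using this

theorem sub (x y : F) : σ.st (x - y) = σ.st x - σ.st y := by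
  rw [sub_eq_add_neg, σ.add, σ.neg, sub_eq_add_neg]

end Inv

/-- sums of hermitian squares modulo `J` -/
def SOS (x : F) : Prop := ∃ l : List F, x - (l.map fun b => σ.st b * b).sum ∈ J

variable {σ J}

theorem smul_mem_J {x : F} (r : ℝ) (hx : x ∈ J) : r • x ∈ J := by
  rw [Algebra.smul_def]
  exact J.mul_mem_left _ _ hx

theorem SOS.of_mem {x : F} (hx : x ∈ J) : SOS σ J x := ⟨[], by simpa using hx⟩

theorem SOS.add {x y : F} (hx : SOS σ J x) (hy : SOS σ J y) : SOS σ J (x + y) := by
  obtain ⟨l, hl⟩ := hx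
  obtain ⟨m, hm⟩ := hy
  refine ⟨l ++ m, ?_⟩
  rw [List.map_append, List.sum_append]
  have := J.add_mem hl hm
  have e : x + y - ((l.map fun b => σ.st b * b).sum + (m.map fun b => σ.st b * b).sum) =
      x - (l.map fun b => σ.st b * b).sum + (y - (m.map fun b => σ.st b * b).sum) := by abel
  rw [e]
  exact this

theorem SOS.sq (b : F) : SOS σ J (σ.st b * b) := ⟨[b], by simp [J.zero_mem]⟩

theorem list_smul (l : List F) (r : ℝ) (hr : 0 ≤ r) :
    ((l.map fun b => √r • b).map fun b => σ.st b * b).sum =
      r • (l.map fun b => σ.st b * b).sum := by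
  induction l with
  | nil => simp
  | cons b l ih =>
    simp only [List.map_cons, List.sum_cons]
    rw [ih, smul_add, σ.smul, smul_mul_smul_comm, Real.mul_self_sqrt hr]

theorem SOS.smul {x : F} (hx : SOS σ J x) {r : ℝ} (hr : 0 ≤ r) : SOS σ J (r • x) := by
  obtain ⟨l, hl⟩ := hx
  refine ⟨l.map fun b => √r • b, ?_⟩
  rw [list_smul l r hr, ← smul_sub]
  exact smul_mem_J r hl

theorem list_conj (l : List F) (y : F) :
    ((l.map fun b => b * y).map fun b => σ.st b * b).sum =
      σ.st y * (l.map fun b => σ.st b * b).sum * y := by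
  induction l with
  | nil => simp
  | cons b l ih =>
    simp only [List.map_cons, List.sum_cons]
    rw [ih, σ.mul]
    noncomm_ring

theorem SOS.conj {x : F} (hx : SOS σ J x) (y : F) : SOS σ J (σ.st y * x * y) := by
  obtain ⟨l, hl⟩ := hx
  refine ⟨l.map fun b => b * y, ?_⟩
  rw [list_conj]
  have e : σ.st y * x * y - σ.st y * (l.map fun b => σ.st b * b).sum * y =
      σ.st y * (x - (l.map fun b => σ.st b * b).sum) * y := by noncomm_ring
  rw [e]
  exact J.mul_mem_right _ _ (J.mul_mem_left _ _ hl)

theorem SOS.one : SOS σ J 1 := by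
  have := SOS.sq (σ := σ) (J := J) 1
  rwa [σ.one, one_mul] at this

theorem SOS.const {r : ℝ} (hr : 0 ≤ r) : SOS σ J (r • (1 : F)) := SOS.one.smul hr

variable (σ J)

/-- bounded elements -/
def Bd (x : F) : Prop := ∃ N : ℝ, 0 ≤ N ∧ SOS σ J (N • (1 : F) - σ.st x * x)

variable {σ J}

theorem Bd.mul {x y : F} (hx : Bd σ J x) (hy : Bd σ J y) : Bd σ J (x * y) := by
  obtain ⟨N, hN0, hN⟩ := hx
  obtain ⟨M, hM0, hM⟩ := hy
  refine ⟨N * M, by positivity, ?_⟩
  have h1 := (hM.smul hN0).add (hN.conj y)
  convert h1 using 1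
  rw [σ.mul, smul_sub, smul_smul]
  have e : σ.st y * (N • 1 - σ.st x * x) * y = N • (σ.st y * y) -
      σ.st y * σ.st x * (x * y) := by
    rw [mul_sub, sub_mul, mul_smul_comm, mul_one, smul_mul_assoc]
    noncomm_ring
  rw [e]
  abel

theorem Bd.add {x y : F} (hx : Bd σ J x) (hy : Bd σ J y) : Bd σ J (x + y) := by
  obtain ⟨N, hN0, hN⟩ := hx
  obtain ⟨M, hM0, hM⟩ := hy
  refine ⟨2 * N + 2 * M, by positivity, ?_⟩
  have h1 := ((hN.smul (zero_le_two (α := ℝ))).add (hM.smul (zero_le_two (α := ℝ)))).add
    (SOS.sq (σ := σ) (J := J) (x - y))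
  convert h1 using 1
  rw [σ.sub, σ.add, smul_sub, smul_sub, smul_smul, smul_smul, add_smul]
  have e2 : ∀ u : F, (2 : ℝ) • u = u + u := fun u => by rw [two_smul]
  rw [e2 (σ.st x * x), e2 (σ.st y * y)]
  noncomm_ring

theorem Bd.scalar (r : ℝ) : Bd σ J (algebraMap ℝ F r) := by
  refine ⟨r ^ 2, by positivity, ?_⟩
  rw [Algebra.algebraMap_eq_smul_one, σ.smul, σ.one, smul_mul_smul_comm, one_mul, ← pow_two,
    sub_self]
  exact SOS.of_mem J.zero_mem

theorem Bd.shift {x : F} (hx : Bd σ J x) : ∃ N : ℝ, SOS σ J (N • (1 : F) + (x + σ.st x)) := by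
  obtain ⟨N, hN0, hN⟩ := hx
  refine ⟨1 + N, ?_⟩
  have h1 := hN.add (SOS.sq (σ := σ) (J := J) (1 + x))
  convert h1 using 1
  rw [σ.add, σ.one, add_smul, one_smul]
  noncomm_ring

/-- The existence of a positive functional. -/
theorem exists_functional (hJ : ∀ x ∈ J, σ.st x ∈ J) (hb : ∀ x, Bd σ J x)
    (h1 : ¬ SOS σ J (-1)) : ∃ L : F →ₗ[ℝ] ℝ, L 1 = 1 ∧ (∀ x, 0 ≤ L (σ.st x * x)) ∧
      (∀ x ∈ J, L x = 0) ∧ ∀ x, L (σ.st x) = L x := by
  let s : PointedCone ℝ F :=
    { carrier := {x | SOS σ J (x + σ.st x)}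
      zero_mem' := by
        change SOS σ J (0 + σ.st 0)
        rw [σ.zero, add_zero]
        exact SOS.of_mem J.zero_mem
      smul_mem' := by
        rintro ⟨r, hr⟩ x hx
        change SOS σ J (r • x + σ.st (r • x))
        rw [σ.smul, ← smul_add]
        exact SOS.smul hx hr
      add_mem' := by
        intro x y hx hy
        change SOS σ J (x + y + σ.st (x + y))
        have := SOS.add hx hy
        convert this using 1
        rw [σ.add]
        abel }
  have hs : ∀ x, x ∈ s ↔ SOS σ J (x + σ.st x) := fun x => Iff.rfl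
  have hone : (1 : F) ≠ 0 := by
    intro h
    apply h1
    rw [h, neg_zero]
    exact SOS.of_mem J.zero_mem
  have hcone : ∀ r : ℝ, r • (1 : F) ∈ s → 0 ≤ r := by
    intro r hr
    by_contra hneg
    push Not at hneg
    rw [hs, σ.smul, σ.one] at hr
    apply h1
    have h2 := hr.smul (r := 1 / (-(2 * r))) (by
      apply div_nonneg zero_le_one; linarith)
    convert h2 using 1
    rw [← add_smul, smul_smul]
    have hr0 : r ≠ 0 := hneg.ne
    have : 1 / (-(2 * r)) * (r + r) = -1 := by
      field_simp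
      ring
    rw [this, neg_one_smul]
  let f : F →ₗ.[ℝ] ℝ := LinearPMap.mkSpanSingleton (1 : F) (1 : ℝ) hone
  obtain ⟨g, hg1, hg2⟩ := riesz_extension s f (by
    rintro ⟨x, hx⟩ hxs
    change x ∈ Submodule.span ℝ {(1 : F)} at hx
    obtain ⟨r, rfl⟩ := Submodule.mem_span_singleton.1 hx
    have h2 : f ⟨r • (1 : F), hx⟩ = r • (1 : ℝ) :=
      LinearPMap.mkSpanSingleton'_apply (σ := RingHom.id ℝ) (1 : F) (1 : ℝ) _ r hx
    rw [h2, smul_eq_mul, mul_one]
    exact hcone r hxs) (by
    intro y
    obtain ⟨N, hN⟩ := (hb y).shift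
    refine ⟨⟨(N / 2) • (1 : F), Submodule.mem_span_singleton.2 ⟨N / 2, rfl⟩⟩, ?_⟩
    rw [hs]
    convert hN using 1
    rw [σ.add, σ.smul, σ.one]
    have : N • (1 : F) = (N / 2) • (1 : F) + (N / 2) • (1 : F) := by
      rw [← add_smul]; congr 1; ring
    rw [this]
    abel)
  refine ⟨g, ?_, ?_, ?_, ?_⟩
  · have h2 := hg1 ⟨1, Submodule.mem_span_singleton_self 1⟩
    have h3 : f ⟨1, Submodule.mem_span_singleton_self 1⟩ = 1 :=
      LinearPMap.mkSpanSingleton'_apply_self (σ := RingHom.id ℝ) (1 : F) (1 : ℝ) _ _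
    rw [h3] at h2
    exact h2
  · intro x
    apply hg2
    rw [hs]
    have e : σ.st x * x + σ.st (σ.st x * x) = (2 : ℝ) • (σ.st x * x) := by
      rw [σ.mul, σ.inv, two_smul]
    rw [e]
    exact (SOS.sq x).smul zero_le_two
  · intro x hx
    have h2 : 0 ≤ g x := by
      apply hg2
      rw [hs]
      exact SOS.of_mem (J.add_mem hx (hJ x hx))
    have h3 : 0 ≤ g (-x) := by
      apply hg2
      rw [hs, σ.neg]
      exact SOS.of_mem (J.add_mem (J.neg_mem hx) (J.neg_mem (hJ x hx)))
    rw [map_neg] at h3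
    linarith
  · intro x
    have h2 : ∀ y : F, 0 ≤ g (y - σ.st y) := by
      intro y
      apply hg2
      rw [hs, σ.sub, σ.inv]
      have : y - σ.st y + (σ.st y - y) = 0 := by abel
      rw [this]
      exact SOS.of_mem J.zero_mem
    have h3 := h2 x
    have h4 := h2 (σ.st x)
    rw [σ.inv] at h4
    rw [map_sub] at h3 h4
    linarith

section rep

variable (L : F →ₗ[ℝ] ℝ) (hL : ∀ x, 0 ≤ L (σ.st x * x)) (hsym : ∀ x, L (σ.st x) = L x)

include hL hsym in
theorem cs {x : F} (hx : L (σ.st x * x) = 0) (y : F) : L (σ.st x * y) = 0 := by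
  have h1 : ∀ t : ℝ, 0 ≤ 2 * t * L (σ.st x * y) + L (σ.st y * y) := by
    intro t
    have h2 := hL (t • x + y)
    have h3 : L (σ.st y * x) = L (σ.st x * y) := by
      rw [← hsym, σ.mul, σ.inv]
    rw [σ.add, σ.smul, add_mul, mul_add, mul_add, smul_mul_smul_comm, smul_mul_assoc,
      mul_smul_comm, map_add, map_add, map_add, map_smul, map_smul, map_smul, hx, h3] at h2
    simp only [smul_eq_mul, mul_zero, zero_add] at h2
    linarith
  by_contra hne
  have h2 := h1 (-(L (σ.st y * y) + 1) / (2 * L (σ.st x * y)))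
  have h3 : 2 * (-(L (σ.st y * y) + 1) / (2 * L (σ.st x * y))) * L (σ.st x * y) =
      -(L (σ.st y * y) + 1) := by
    field_simp
  rw [h3] at h2
  linarith

/-- the null vectors -/
def nul (L : F →ₗ[ℝ] ℝ) (hL : ∀ x, 0 ≤ L (σ.st x * x)) (hsym : ∀ x, L (σ.st x) = L x) :
    Submodule ℝ F where
  carrier := {x | L (σ.st x * x) = 0}
  zero_mem' := by simp
  add_mem' := by
    intro x y hx hy
    change L (σ.st x * x) = 0 at hx
    change L (σ.st y * y) = 0 at hy
    change L (σ.st (x + y) * (x + y)) = 0
    rw [σ.add, add_mul, mul_add, mul_add, map_add, map_add, map_add, hx, hy,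
      cs L hL hsym hx, cs L hL hsym hy]
    simp
  smul_mem' := by
    intro r x hx
    change L (σ.st x * x) = 0 at hx
    change L (σ.st (r • x) * (r • x)) = 0
    rw [σ.smul, smul_mul_smul_comm, map_smul, hx, smul_zero]

theorem mem_nul {x : F} : x ∈ nul L hL hsym ↔ L (σ.st x * x) = 0 := Iff.rfl

/-- the inner product on the quotient -/
noncomputable def ip : IP (F ⧸ nul L hL hsym) where
  f := fun u v => Quotient.liftOn₂' u v (fun x y => L (σ.st x * y)) (by
    intro x y x' y' h1 h2
    rw [Submodule.quotientRel_def] at h1 h2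
    rw [mem_nul] at h1 h2
    have e1 := cs L hL hsym h1 y
    have e2 := cs L hL hsym h2 (x')
    have e3 : L (σ.st x' * (y - y')) = 0 := by
      rw [← hsym, σ.mul, σ.inv]
      exact e2
    rw [σ.sub, sub_mul, map_sub] at e1
    rw [mul_sub, map_sub] at e3
    change L (σ.st x * y) = L (σ.st x' * y')
    linarith)
  add := by
    intro u v w
    induction u using Submodule.Quotient.induction_on with | _ u
    induction v using Submodule.Quotient.induction_on with | _ v
    induction w using Submodule.Quotient.induction_on with | _ w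
    change L (σ.st (u + v) * w) = L (σ.st u * w) + L (σ.st v * w)
    rw [σ.add, add_mul, map_add]
  smul := by
    intro r v w
    induction v using Submodule.Quotient.induction_on with | _ v
    induction w using Submodule.Quotient.induction_on with | _ w
    change L (σ.st (r • v) * w) = r * L (σ.st v * w)
    rw [σ.smul, smul_mul_assoc, map_smul, smul_eq_mul]
  symm := by
    intro v w
    induction v using Submodule.Quotient.induction_on with | _ v
    induction w using Submodule.Quotient.induction_on with | _ w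
    change L (σ.st v * w) = L (σ.st w * v)
    rw [← hsym, σ.mul, σ.inv]
  nonneg := by
    intro v
    induction v using Submodule.Quotient.induction_on with | _ v
    exact hL v
  def_zero := by
    intro v hv
    induction v using Submodule.Quotient.induction_on with | _ v
    rw [Submodule.Quotient.mk_eq_zero]
    exact hv

/-- left multiplication on the quotient -/
noncomputable def op (a : F) : (F ⧸ nul L hL hsym) →ₗ[ℝ] (F ⧸ nul L hL hsym) :=
  Submodule.mapQ _ _ (LinearMap.mulLeft ℝ a) (by
    intro x hx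
    rw [mem_nul] at hx
    rw [Submodule.mem_comap, mem_nul, LinearMap.mulLeft_apply, σ.mul]
    have := cs L hL hsym hx (σ.st a * (a * x))
    rw [mul_assoc]
    exact this)

theorem op_mk (a x : F) : op L hL hsym a (Submodule.Quotient.mk x) =
    Submodule.Quotient.mk (a * x) := rfl

theorem op_add (a b : F) : op L hL hsym (a + b) = op L hL hsym a + op L hL hsym b := by
  apply LinearMap.ext
  intro v
  induction v using Submodule.Quotient.induction_on with | _ x
  rw [LinearMap.add_apply, op_mk, op_mk, op_mk, add_mul, Submodule.Quotient.mk_add]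

theorem op_smul (r : ℝ) (a : F) : op L hL hsym (r • a) = r • op L hL hsym a := by
  apply LinearMap.ext
  intro v
  induction v using Submodule.Quotient.induction_on with | _ x
  rw [LinearMap.smul_apply, op_mk, op_mk, smul_mul_assoc, Submodule.Quotient.mk_smul]

theorem op_mul (a b : F) (v : F ⧸ nul L hL hsym) :
    op L hL hsym (a * b) v = op L hL hsym a (op L hL hsym b v) := by
  induction v using Submodule.Quotient.induction_on with | _ v
  rw [op_mk, op_mk, op_mk, mul_assoc]

theorem op_one (v : F ⧸ nul L hL hsym) : op L hL hsym 1 v = v := by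
  induction v using Submodule.Quotient.induction_on with | _ v
  rw [op_mk, one_mul]

theorem op_symm (a : F) (ha : σ.st a = a) (v w : F ⧸ nul L hL hsym) :
    (ip L hL hsym).f (op L hL hsym a v) w = (ip L hL hsym).f v (op L hL hsym a w) := by
  induction v using Submodule.Quotient.induction_on with | _ v
  induction w using Submodule.Quotient.induction_on with | _ w
  change L (σ.st (a * v) * w) = L (σ.st v * (a * w))
  rw [σ.mul, ha, mul_assoc]

theorem op_mem (hJ0 : ∀ x ∈ J, L x = 0) {a : F} (ha : a ∈ J) (v : F ⧸ nul L hL hsym) :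
    op L hL hsym a v = 0 := by
  induction v using Submodule.Quotient.induction_on with | _ v
  rw [op_mk, Submodule.Quotient.mk_eq_zero, mem_nul]
  exact hJ0 _ (J.mul_mem_left _ _ (J.mul_mem_right _ _ ha))

end rep

end Pool.Agent.W5h94.Vamos
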