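import Mathlib

set_option autoImplicit false

/-!
# Symmetric operators satisfying the relations of the specialized Vámos polynomial

`H(a, b, c, d) = 4 e₁ e₃ + c² d²`.  There are no symmetric operators `A, B, C, D` with sum `1` on a
nonzero real inner product space such that `T = a A + b B + c C + d D` is a zero of the polynomial
`H(a - t, b - t, c - t, d - t)` in `t` for all real `a, b, c, d`.
-/

namespace Pool.Agent.W5h94.Vamos

/-- A real inner product on a vector space. -/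
structure IP (V : Type*) [AddCommGroup V] [Module ℝ V] where
  /-- the form -/
  f : V → V → ℝ
  add : ∀ u v w, f (u + v) w = f u w + f v w
  smul : ∀ (r : ℝ) (v w : V), f (r • v) w = r * f v w
  symm : ∀ v w, f v w = f w v
  nonneg : ∀ v, 0 ≤ f v v
  def_zero : ∀ v, f v v = 0 → v = 0

variable {V : Type*} [AddCommGroup V] [Module ℝ V] (β : IP V)

namespace IP

theorem add_right (u v w : V) : β.f u (v + w) = β.f u v + β.f u w := by
  rw [β.symm, β.add, β.symm v, β.symm w]

theorem smul_right (r : ℝ) (v w : V) : β.f v (r • w) = r * β.f v w := by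
  rw [β.symm, β.smul, β.symm]

theorem zero_left (v : V) : β.f 0 v = 0 := by
  have := β.smul 0 0 v
  simpa using this

theorem zero_right (v : V) : β.f v 0 = 0 := by
  rw [β.symm, β.zero_left]

theorem sub_left (u v w : V) : β.f (u - v) w = β.f u w - β.f v w := by
  rw [sub_eq_add_neg, ← neg_one_smul ℝ v, β.add, β.smul]; ring

theorem sub_right (u v w : V) : β.f u (v - w) = β.f u v - β.f u w := by
  rw [β.symm, β.sub_left, β.symm v, β.symm w]

end IP

/-- `P` is symmetric and satisfies `P (k₂ - k₃ P + 65 P²) = 0`. -/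
structure Good (P : V →ₗ[ℝ] V) (k2 k3 : ℝ) : Prop where
  sym : ∀ v w, β.f (P v) w = β.f v (P w)
  cub : ∀ v, k2 • P v - k3 • P (P v) + (65 : ℝ) • P (P (P v)) = 0

/-- `k₂ - k₃ P + 65 P²` -/
def qq (P : V →ₗ[ℝ] V) (k2 k3 : ℝ) (v : V) : V := k2 • v - k3 • P v + (65 : ℝ) • P (P v)

variable {β}

theorem good_of_quartic {P : V →ₗ[ℝ] V} {k2 k3 : ℝ} (hs : ∀ v w, β.f (P v) w = β.f v (P w))
    (h : ∀ v, k2 • P (P v) - k3 • P (P (P v)) + (65 : ℝ) • P (P (P (P v))) = 0) :
    Good β P k2 k3 := by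
  refine ⟨hs, fun v => ?_⟩
  have h1 : P (P (qq P k2 k3 v)) = 0 := by
    rw [← h v]
    simp [qq]
  have h2 : P (qq P k2 k3 v) = 0 := by
    apply β.def_zero
    rw [hs, h1, β.zero_right]
  rw [← h2]
  simp [qq]

theorem Good.P_qq {P : V →ₗ[ℝ] V} {k2 k3 : ℝ} (h : Good β P k2 k3) (v : V) :
    P (qq P k2 k3 v) = 0 := by
  rw [← h.cub v]
  simp [qq]

theorem Good.qq_sym {P : V →ₗ[ℝ] V} {k2 k3 : ℝ} (h : Good β P k2 k3) (v w : V) :
    β.f (qq P k2 k3 v) w = k2 * β.f v w - k3 * β.f (P v) w + 65 * β.f (P v) (P w) := by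
  rw [qq, β.add, β.sub_left, β.smul, β.smul, β.smul, h.sym (P v)]

/-- moments -/
theorem Good.moments {P : V →ₗ[ℝ] V} {k2 k3 : ℝ} (h : Good β P k2 k3) (v : V) :
    k2 * β.f (P v) v - k3 * β.f (P v) (P v) + 65 * β.f (P (P v)) (P v) = 0 ∧
    k2 * β.f (P v) (P v) - k3 * β.f (P (P v)) (P v) + 65 * β.f (P (P v)) (P (P v)) = 0 ∧
    0 ≤ β.f (P v) (P v) ∧
    0 ≤ β.f (P (P v)) (P (P v)) - 2 * β.f (P (P v)) (P v) + β.f (P v) (P v) := by
  have h1 := congrArg (fun u => β.f u v) (h.cub v)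
  have h2 := congrArg (fun u => β.f u (P v)) (h.cub v)
  simp only [β.add, β.sub_left, β.smul, β.zero_left] at h1 h2
  rw [h.sym (P (P v)), h.sym (P v) v] at h1
  rw [h.sym (P (P v))] at h2
  have h3 := β.nonneg (P (P v) - P v)
  rw [β.sub_left, β.sub_right, β.sub_right, β.symm (P v) (P (P v))] at h3
  exact ⟨h1, h2, β.nonneg _, by linarith⟩

theorem Good.nonneg12 {P : V →ₗ[ℝ] V} (h : Good β P 12 64) (v : V) :
    0 ≤ β.f (P v) v ∧ (β.f (P v) v = 0 → P v = 0) := by
  obtain ⟨h1, h2, h3, h4⟩ := h.moments v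
  refine ⟨by linarith, fun h0 => β.def_zero _ (by linarith)⟩

theorem Good.nonneg13 {P : V →ₗ[ℝ] V} (h : Good β P 13 66) (v : V) :
    0 ≤ β.f (P v) v ∧ (β.f (P v) v = 0 → P v = 0) := by
  obtain ⟨h1, h2, h3, h4⟩ := h.moments v
  refine ⟨by linarith, fun h0 => β.def_zero _ (by linarith)⟩

/-- The relation for a pair of operators, on the kernel of the first one. -/
theorem pair {P Q : V →ₗ[ℝ] V} {k2 k3 m1 m0 m3 : ℝ} (hP : ∀ v w, β.f (P v) w = β.f v (P w))
    (hQ : ∀ v w, β.f (Q v) w = β.f v (Q w))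
    (hrel : ∀ (s : ℝ) (v : V), (-8 * (s + 1) * s) • (s • P + Q) v +
      (k2 * s ^ 2 + m1 * s + m0) • (s • P + Q) ((s • P + Q) v) +
      (-k3 * s - m3) • (s • P + Q) ((s • P + Q) ((s • P + Q) v)) +
      (65 : ℝ) • (s • P + Q) ((s • P + Q) ((s • P + Q) ((s • P + Q) v))) = 0)
    {v w : V} (hv : P v = 0) (hw : P w = 0) :
    k2 * β.f (Q v) (Q w) - k3 * β.f (P (Q v)) (Q w) + 65 * β.f (P (Q v)) (P (Q w)) =
      8 * β.f (Q v) w := by
  have hT : ∀ (s : ℝ) (x y : V), β.f ((s • P + Q) x) y = β.f x ((s • P + Q) y) := by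
    intro s x y
    simp only [LinearMap.add_apply, LinearMap.smul_apply, β.add, β.smul, β.add_right,
      β.smul_right, hP, hQ]
  have key : ∀ s : ℝ, (-8 * (s + 1) * s) * β.f (Q v) w +
      (k2 * s ^ 2 + m1 * s + m0) * β.f (Q v) (Q w) +
      (-k3 * s - m3) * (s * β.f (P (Q v)) (Q w) + β.f (Q (Q v)) (Q w)) +
      65 * (s ^ 2 * β.f (P (Q v)) (P (Q w)) + s * (β.f (P (Q v)) (Q (Q w)) +
        β.f (Q (Q v)) (P (Q w))) + β.f (Q (Q v)) (Q (Q w))) = 0 := by
    intro s
    have h1 := congrArg (fun u => β.f u w) (hrel s v)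
    have ev : (s • P + Q) v = Q v := by simp [hv]
    have ew : (s • P + Q) w = Q w := by simp [hw]
    simp only [β.add, β.smul, β.zero_left] at h1
    rw [hT s ((s • P + Q) ((s • P + Q) ((s • P + Q) v))) w,
      hT s ((s • P + Q) ((s • P + Q) v)) w, hT s ((s • P + Q) v) w,
      hT s ((s • P + Q) ((s • P + Q) v)) ((s • P + Q) w), ev, ew] at h1
    simp only [LinearMap.add_apply, LinearMap.smul_apply, β.add, β.smul, β.add_right,
      β.smul_right] at h1
    linear_combination h1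
  have h1 := key 1
  have h2 := key (-1)
  have h3 := key 0
  linarith

/-- The element `8 v - q(P) Q v` of the kernel of `P` lies in the kernel of `Q`. -/
theorem proj {P Q : V →ₗ[ℝ] V} {k2 k3 : ℝ} (hP : Good β P k2 k3)
    (hQs : ∀ v w, β.f (Q v) w = β.f v (Q w))
    (hQ : ∀ v, β.f (Q v) v = 0 → Q v = 0)
    (hpair : ∀ v w, P v = 0 → P w = 0 →
      k2 * β.f (Q v) (Q w) - k3 * β.f (P (Q v)) (Q w) + 65 * β.f (P (Q v)) (P (Q w)) =
      8 * β.f (Q v) w) {v : V} (hv : P v = 0) :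
    P ((8 : ℝ) • v - qq P k2 k3 (Q v)) = 0 ∧ Q ((8 : ℝ) • v - qq P k2 k3 (Q v)) = 0 := by
  have h1 : P ((8 : ℝ) • v - qq P k2 k3 (Q v)) = 0 := by
    rw [map_sub, hP.P_qq, map_smul, hv]; simp
  refine ⟨h1, ?_⟩
  apply hQ
  set k := (8 : ℝ) • v - qq P k2 k3 (Q v) with hk
  have h2 : β.f (Q k) k = 8 * β.f (Q v) k - β.f (qq P k2 k3 (Q v)) (Q k) := by
    rw [hQs]
    conv_lhs => rw [hk]
    rw [β.sub_left, β.smul, ← hk, hQs]
  rw [h2, hP.qq_sym, hpair v k hv h1]
  ring

theorem qq_add (P : V →ₗ[ℝ] V) (k2 k3 : ℝ) (u v : V) :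
    qq P k2 k3 (u + v) = qq P k2 k3 u + qq P k2 k3 v := by
  simp only [qq, map_add, smul_add]
  abel

theorem qq_smul (P : V →ₗ[ℝ] V) (k2 k3 r : ℝ) (v : V) :
    qq P k2 k3 (r • v) = r • qq P k2 k3 v := by
  simp only [qq, map_smul]
  module

theorem qq_ker {P : V →ₗ[ℝ] V} {k2 k3 : ℝ} {v : V} (h : P v = 0) :
    qq P k2 k3 v = k2 • v := by
  simp [qq, h]

section main

variable {A B C D : V →ₗ[ℝ] V} (hA : ∀ v w, β.f (A v) w = β.f v (A w))
    (hB : ∀ v w, β.f (B v) w = β.f v (B w)) (hC : ∀ v w, β.f (C v) w = β.f v (C w))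
    (hD : ∀ v w, β.f (D v) w = β.f v (D w)) (hsum : ∀ v, A v + B v + C v + D v = v)
    (hrel : ∀ (a b c d : ℝ) (T : V →ₗ[ℝ] V), T = a • A + b • B + c • C + d • D → ∀ v,
      (4 * (a + b + c + d) * (a * b * c + a * b * d + a * c * d + b * c * d) +
        c ^ 2 * d ^ 2) • v +
      (-8 * (a + b + c + d) * (a * b + a * c + a * d + b * c + b * d + c * d) -
        16 * (a * b * c + a * b * d + a * c * d + b * c * d) - 2 * c * d * (c + d)) • T v +
      (12 * (a + b + c + d) ^ 2 + 32 * (a * b + a * c + a * d + b * c + b * d + c * d) +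
        (c + d) ^ 2 + 2 * c * d) • T (T v) +
      (-64 * (a + b + c + d) - 2 * (c + d)) • T (T (T v)) +
      (65 : ℝ) • T (T (T (T v))) = 0)

include hA hB hC hD hsum hrel

theorem no_rep (v : V) : v = 0 := by
  -- the single operators
  have gA : Good β A 12 64 := by
    apply good_of_quartic hA
    intro v
    have h1 := hrel 1 0 0 0 A (by simp) v
    rw [← h1]; module
  have gB : Good β B 12 64 := by
    apply good_of_quartic hB
    intro v
    have h1 := hrel 0 1 0 0 B (by simp) v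
    rw [← h1]; module
  have gC : Good β C 13 66 := by
    apply good_of_quartic hC
    intro v
    have h1 := hrel 0 0 1 0 C (by simp) v
    rw [← h1]; module
  have gD : Good β D 13 66 := by
    apply good_of_quartic hD
    intro v
    have h1 := hrel 0 0 0 1 D (by simp) v
    rw [← h1]; module
  -- the pairs
  have pAB : ∀ v w, A v = 0 → A w = 0 → 12 * β.f (B v) (B w) - 64 * β.f (A (B v)) (B w) +
      65 * β.f (A (B v)) (A (B w)) = 8 * β.f (B v) w := by
    intro v w hv hw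
    refine pair (m1 := 56) (m0 := 12) (m3 := 64) hA hB (fun s v => ?_) hv hw
    have h1 := hrel s 1 0 0 (s • A + B) (by simp) v
    rw [← h1]; module
  have pAC : ∀ v w, A v = 0 → A w = 0 → 12 * β.f (C v) (C w) - 64 * β.f (A (C v)) (C w) +
      65 * β.f (A (C v)) (A (C w)) = 8 * β.f (C v) w := by
    intro v w hv hw
    refine pair (m1 := 56) (m0 := 13) (m3 := 66) hA hC (fun s v => ?_) hv hw
    have h1 := hrel s 0 1 0 (s • A + C) (by simp) v
    rw [← h1]; module
  have pAD : ∀ v w, A v = 0 → A w = 0 → 12 * β.f (D v) (D w) - 64 * β.f (A (D v)) (D w) +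
      65 * β.f (A (D v)) (A (D w)) = 8 * β.f (D v) w := by
    intro v w hv hw
    refine pair (m1 := 56) (m0 := 13) (m3 := 66) hA hD (fun s v => ?_) hv hw
    have h1 := hrel s 0 0 1 (s • A + D) (by simp) v
    rw [← h1]; module
  have pBA : ∀ v w, B v = 0 → B w = 0 → 12 * β.f (A v) (A w) - 64 * β.f (B (A v)) (A w) +
      65 * β.f (B (A v)) (B (A w)) = 8 * β.f (A v) w := by
    intro v w hv hw
    refine pair (m1 := 56) (m0 := 12) (m3 := 64) hB hA (fun s v => ?_) hv hw
    have h1 := hrel 1 s 0 0 (s • B + A) (by simp [add_comm]) v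
    rw [← h1]; module
  have pBC : ∀ v w, B v = 0 → B w = 0 → 12 * β.f (C v) (C w) - 64 * β.f (B (C v)) (C w) +
      65 * β.f (B (C v)) (B (C w)) = 8 * β.f (C v) w := by
    intro v w hv hw
    refine pair (m1 := 56) (m0 := 13) (m3 := 66) hB hC (fun s v => ?_) hv hw
    have h1 := hrel 0 s 1 0 (s • B + C) (by simp) v
    rw [← h1]; module
  have pBD : ∀ v w, B v = 0 → B w = 0 → 12 * β.f (D v) (D w) - 64 * β.f (B (D v)) (D w) +
      65 * β.f (B (D v)) (B (D w)) = 8 * β.f (D v) w := by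
    intro v w hv hw
    refine pair (m1 := 56) (m0 := 13) (m3 := 66) hB hD (fun s v => ?_) hv hw
    have h1 := hrel 0 s 0 1 (s • B + D) (by simp) v
    rw [← h1]; module
  have pCA : ∀ v w, C v = 0 → C w = 0 → 13 * β.f (A v) (A w) - 66 * β.f (C (A v)) (A w) +
      65 * β.f (C (A v)) (C (A w)) = 8 * β.f (A v) w := by
    intro v w hv hw
    refine pair (m1 := 56) (m0 := 12) (m3 := 64) hC hA (fun s v => ?_) hv hw
    have h1 := hrel 1 0 s 0 (s • C + A) (by simp [add_comm]) v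
    rw [← h1]; module
  have pCB : ∀ v w, C v = 0 → C w = 0 → 13 * β.f (B v) (B w) - 66 * β.f (C (B v)) (B w) +
      65 * β.f (C (B v)) (C (B w)) = 8 * β.f (B v) w := by
    intro v w hv hw
    refine pair (m1 := 56) (m0 := 12) (m3 := 64) hC hB (fun s v => ?_) hv hw
    have h1 := hrel 0 1 s 0 (s • C + B) (by simp [add_comm]) v
    rw [← h1]; module
  have pDA : ∀ v w, D v = 0 → D w = 0 → 13 * β.f (A v) (A w) - 66 * β.f (D (A v)) (A w) +
      65 * β.f (D (A v)) (D (A w)) = 8 * β.f (A v) w := by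
    intro v w hv hw
    refine pair (m1 := 56) (m0 := 12) (m3 := 64) hD hA (fun s v => ?_) hv hw
    have h1 := hrel 1 0 0 s (s • D + A) (by simp [add_comm]) v
    rw [← h1]; module
  have pDB : ∀ v w, D v = 0 → D w = 0 → 13 * β.f (B v) (B w) - 66 * β.f (D (B v)) (B w) +
      65 * β.f (D (B v)) (D (B w)) = 8 * β.f (B v) w := by
    intro v w hv hw
    refine pair (m1 := 56) (m0 := 12) (m3 := 64) hD hB (fun s v => ?_) hv hw
    have h1 := hrel 0 1 0 s (s • D + B) (by simp [add_comm]) v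
    rw [← h1]; module
  -- common kernels
  have kABC : ∀ v, A v = 0 → B v = 0 → C v = 0 → v = 0 := by
    intro v h1 h2 h3
    have h4 := hrel 1 1 1 0 (A + B + C) (by simp) v
    have h5 : (A + B + C) v = 0 := by simp [h1, h2, h3]
    rw [h5] at h4
    simp only [map_zero, smul_zero, add_zero] at h4
    rw [smul_eq_zero] at h4
    rcases h4 with h4 | h4
    · norm_num at h4
    · exact h4
  have kABD : ∀ v, A v = 0 → B v = 0 → D v = 0 → v = 0 := by
    intro v h1 h2 h3
    have h4 := hrel 1 1 0 1 (A + B + D) (by simp) v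
    have h5 : (A + B + D) v = 0 := by simp [h1, h2, h3]
    rw [h5] at h4
    simp only [map_zero, smul_zero, add_zero] at h4
    rw [smul_eq_zero] at h4
    rcases h4 with h4 | h4
    · norm_num at h4
    · exact h4
  have kCD : ∀ v, C v = 0 → D v = 0 → v = 0 := by
    intro v h1 h2
    have h4 := hrel 0 0 1 1 (C + D) (by simp) v
    have h5 : (C + D) v = 0 := by simp [h1, h2]
    rw [h5] at h4
    simp only [map_zero, smul_zero, add_zero] at h4
    rw [smul_eq_zero] at h4
    rcases h4 with h4 | h4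
    · norm_num at h4
    · exact h4
  have zA : ∀ v, β.f (A v) v = 0 → A v = 0 := fun v => (gA.nonneg12 v).2
  have zB : ∀ v, β.f (B v) v = 0 → B v = 0 := fun v => (gB.nonneg12 v).2
  have zC : ∀ v, β.f (C v) v = 0 → C v = 0 := fun v => (gC.nonneg13 v).2
  have zD : ∀ v, β.f (D v) v = 0 → D v = 0 := fun v => (gD.nonneg13 v).2
  -- the common kernel of `A` and `B`
  have kAB : ∀ x, A x = 0 → B x = 0 → x = 0 := by
    intro x hAx hBx
    obtain ⟨a1, a2⟩ := proj gA hC zC pAC hAx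
    obtain ⟨a3, a4⟩ := proj gA hD zD pAD hAx
    obtain ⟨b1, b2⟩ := proj gB hC zC pBC hBx
    obtain ⟨b3, b4⟩ := proj gB hD zD pBD hBx
    have hCD : C x + D x = x := by
      have := hsum x
      rw [hAx, hBx] at this
      simpa using this
    have sA : ((8 : ℝ) • x - qq A 12 64 (C x)) + ((8 : ℝ) • x - qq A 12 64 (D x)) =
        (4 : ℝ) • x := by
      have h1 := qq_add A 12 64 (C x) (D x)
      rw [hCD, qq_ker hAx] at h1
      have h2 : ((8 : ℝ) • x - qq A 12 64 (C x)) + ((8 : ℝ) • x - qq A 12 64 (D x)) =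
          (16 : ℝ) • x - (qq A 12 64 (C x) + qq A 12 64 (D x)) := by module
      rw [h2, ← h1]; module
    have sB : ((8 : ℝ) • x - qq B 12 64 (C x)) + ((8 : ℝ) • x - qq B 12 64 (D x)) =
        (4 : ℝ) • x := by
      have h1 := qq_add B 12 64 (C x) (D x)
      rw [hCD, qq_ker hBx] at h1
      have h2 : ((8 : ℝ) • x - qq B 12 64 (C x)) + ((8 : ℝ) • x - qq B 12 64 (D x)) =
          (16 : ℝ) • x - (qq B 12 64 (C x) + qq B 12 64 (D x)) := by module
      rw [h2, ← h1]; module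
    set u1 := (8 : ℝ) • x - qq A 12 64 (C x)
    set u2 := (8 : ℝ) • x - qq A 12 64 (D x)
    set w1 := (8 : ℝ) • x - qq B 12 64 (C x)
    set w2 := (8 : ℝ) • x - qq B 12 64 (D x)
    have h1 : u1 - w1 = w2 - u2 := by
      have : u1 + u2 = w1 + w2 := by rw [sA, sB]
      rw [sub_eq_sub_iff_add_eq_add, this, add_comm]
    have h2 : u1 - w1 = 0 := by
      apply kCD
      · rw [map_sub, a2, b2, sub_zero]
      · rw [h1, map_sub, a4, b4, sub_zero]
    have h3 : u1 = w1 := sub_eq_zero.1 h2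
    have h4 : w2 = u2 := sub_eq_zero.1 (h1 ▸ h2)
    have h5 : u1 = 0 := kABC u1 a1 (h3 ▸ b1) a2
    have h6 : u2 = 0 := kABD u2 a3 (h4 ▸ b3) a4
    rw [h5, h6, add_zero] at sA
    have := sA.symm
    rw [smul_eq_zero] at this
    rcases this with h7 | h7
    · norm_num at h7
    · exact h7
  -- the kernel of `A`: there `q(A) B = 8`, `q(A) C` and `q(A) D` are idempotent up to scaling
  have aux : ∀ (P Q : V →ₗ[ℝ] V), Good β P 12 64 → (∀ v w, β.f (Q v) w = β.f v (Q w)) →
      (∀ v, β.f (Q v) v = 0 → Q v = 0) → (∀ v w, P v = 0 → P w = 0 →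
        12 * β.f (Q v) (Q w) - 64 * β.f (P (Q v)) (Q w) + 65 * β.f (P (Q v)) (P (Q w)) =
        8 * β.f (Q v) w) → (∀ v, P v = 0 → Q v = 0 → v = 0) →
      (∀ v, P v = 0 → qq P 12 64 (C v) + qq P 12 64 (D v) + qq P 12 64 (Q v) = (12 : ℝ) • v) →
      (∀ v w, P v = 0 → P w = 0 →
        12 * β.f (C v) (C w) - 64 * β.f (P (C v)) (C w) + 65 * β.f (P (C v)) (P (C w)) =
        8 * β.f (C v) w) → (∀ v w, P v = 0 → P w = 0 →
        12 * β.f (D v) (D w) - 64 * β.f (P (D v)) (D w) + 65 * β.f (P (D v)) (P (D w)) =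
        8 * β.f (D v) w) → ∀ v, P v = 0 → v = 0 := by
    intro P Q gP hQ zQ pPQ kPQ hs pPC pPD v hv
    obtain ⟨a1, a2⟩ := proj gP hQ zQ pPQ hv
    have h1 := sub_eq_zero.1 (kPQ _ a1 a2)
    have h2 := hs v hv
    rw [← h1] at h2
    have h3 : qq P 12 64 (C v) + qq P 12 64 (D v) = (4 : ℝ) • v := by
      have : qq P 12 64 (C v) + qq P 12 64 (D v) = (12 : ℝ) • v - (8 : ℝ) • v := by
        rw [← h2]; abel
      rw [this]; module
    -- moments
    obtain ⟨c1, c2⟩ := proj gP hC zC pPC hv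
    obtain ⟨d1, d2⟩ := proj gP hD zD pPD hv
    have h4 : (8 : ℝ) • v - qq P 12 64 (C v) + ((8 : ℝ) • v - qq P 12 64 (D v)) =
        (12 : ℝ) • v := by
      have : (8 : ℝ) • v - qq P 12 64 (C v) + ((8 : ℝ) • v - qq P 12 64 (D v)) =
        (16 : ℝ) • v - (qq P 12 64 (C v) + qq P 12 64 (D v)) := by module
      rw [this, h3]; module
    set x := (8 : ℝ) • v - qq P 12 64 (C v) with hx
    set y := (8 : ℝ) • v - qq P 12 64 (D v) with hy
    -- `C x = 0`, `D y = 0`, `x + y = 12 v`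
    have h5 : C y = (12 : ℝ) • C v := by
      have := congrArg C h4
      rw [map_add, c2, zero_add, map_smul] at this
      exact this
    have h6 : D x = (12 : ℝ) • D v := by
      have := congrArg D h4
      rw [map_add, d2, add_zero, map_smul] at this
      exact this
    -- apply the projection to `y`
    have hPy : P y = 0 := d1
    have hPx : P x = 0 := c1
    have h7 : qq P 12 64 (C y) = (12 : ℝ) • ((8 : ℝ) • v - x) := by
      rw [h5, qq_smul, hx]; congr 1; abel
    have h8 := hs y hPy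
    rw [h7, d2] at h8
    obtain ⟨e1, e2⟩ := proj gP hQ zQ pPQ hPy
    have h9 := sub_eq_zero.1 (kPQ _ e1 e2)
    rw [← h9] at h8
    have h10 : qq P 12 64 (0 : V) = 0 := by simp [qq]
    rw [h10] at h8
    -- `12 (8 v - x) + 8 y = 12 y`, `x + y = 12 v`
    have h11 : y = (12 : ℝ) • v - x := by rw [← h4]; abel
    rw [h11] at h8
    have h12 : x = (6 : ℝ) • v := by
      have h13 : (8 : ℝ) • x = (48 : ℝ) • v := by
        have h14 : (12 : ℝ) • ((8 : ℝ) • v - x) + 0 + (8 : ℝ) • ((12 : ℝ) • v - x) -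
          (12 : ℝ) • ((12 : ℝ) • v - x) = 0 := sub_eq_zero.2 h8
        have h15 : (12 : ℝ) • ((8 : ℝ) • v - x) + 0 + (8 : ℝ) • ((12 : ℝ) • v - x) -
          (12 : ℝ) • ((12 : ℝ) • v - x) = (48 : ℝ) • v - (8 : ℝ) • x := by module
        rw [h15] at h14
        exact (sub_eq_zero.1 h14).symm
      have h16 : x = ((1 / 8 : ℝ)) • ((8 : ℝ) • x) := by module
      rw [h16, h13]; module
    have h17 : C v = 0 := by
      rw [h12, map_smul, smul_eq_zero] at c2
      rcases c2 with h | h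
      · norm_num at h
      · exact h
    have h18 : x = (8 : ℝ) • v := by
      rw [hx, h17, h10, sub_zero]
    rw [h12] at h18
    have h19 : (2 : ℝ) • v = 0 := by
      have : (2 : ℝ) • v = (8 : ℝ) • v - (6 : ℝ) • v := by module
      rw [this, ← h18, sub_self]
    rw [smul_eq_zero] at h19
    rcases h19 with h | h
    · norm_num at h
    · exact h
  have kA : ∀ v, A v = 0 → v = 0 := by
    apply aux A B gA hB zB pAB kAB _ pAC pAD
    intro v hv
    have h1 : C v + D v + B v = v := by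
      have := hsum v
      rw [hv, zero_add] at this
      conv_rhs => rw [← this]
      abel
    rw [← qq_add, ← qq_add, h1, qq_ker hv]
  have kB : ∀ v, B v = 0 → v = 0 := by
    apply aux B A gB hA zA pBA (fun v h1 h2 => kAB v h2 h1) _ pBC pBD
    intro v hv
    have h1 : C v + D v + A v = v := by
      have := hsum v
      rw [hv, add_zero] at this
      conv_rhs => rw [← this]
      abel
    rw [← qq_add, ← qq_add, h1, qq_ker hv]
  -- the kernels of `C` and `D`
  have aux2 : ∀ (P Q : V →ₗ[ℝ] V), Good β P 13 66 → (∀ v, 0 ≤ β.f (Q v) v) →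
      (∀ v w, P v = 0 → P w = 0 →
        13 * β.f (A v) (A w) - 66 * β.f (P (A v)) (A w) + 65 * β.f (P (A v)) (P (A w)) =
        8 * β.f (A v) w) → (∀ v w, P v = 0 → P w = 0 →
        13 * β.f (B v) (B w) - 66 * β.f (P (B v)) (B w) + 65 * β.f (P (B v)) (P (B w)) =
        8 * β.f (B v) w) → (∀ v, P v = 0 → A v + B v + Q v = v) → ∀ v, P v = 0 → v = 0 := by
    intro P Q gP nQ pA pB hs v hv
    have h1 := sub_eq_zero.1 (kA _ (proj gP hA zA pA hv).2)
    have h2 := sub_eq_zero.1 (kB _ (proj gP hB zB pB hv).2)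
    have h3 : qq P 13 66 (A v) + qq P 13 66 (B v) + qq P 13 66 (Q v) = (13 : ℝ) • v := by
      rw [← qq_add, ← qq_add, hs v hv, qq_ker hv]
    rw [← h1, ← h2] at h3
    have h4 : qq P 13 66 (Q v) = (-3 : ℝ) • v := by
      have : qq P 13 66 (Q v) = (13 : ℝ) • v - ((8 : ℝ) • v + (8 : ℝ) • v) := by
        rw [← h3]; abel
      rw [this]; module
    have h5 := gP.qq_sym (Q v) v
    rw [h4, β.smul, hv, gP.sym, hv, β.zero_right, β.zero_right] at h5
    have h6 := nQ v
    have h7 := β.nonneg v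
    exact β.def_zero v (by linarith)
  have kC : ∀ v, C v = 0 → v = 0 := by
    apply aux2 C D gC (fun v => (gD.nonneg13 v).1) pCA pCB
    intro v hv
    have := hsum v
    rw [hv, add_zero] at this
    exact this
  have kD : ∀ v, D v = 0 → v = 0 := by
    apply aux2 D C gD (fun v => (gC.nonneg13 v).1) pDA pDB
    intro v hv
    have := hsum v
    rw [hv, add_zero] at this
    exact this
  -- the final contradiction
  have low : ∀ (P : V →ₗ[ℝ] V) (k2 k3 : ℝ), Good β P k2 k3 → (∀ v, P v = 0 → v = 0) →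
      k2 * β.f v v - k3 * β.f (P v) v + 65 * β.f (P v) (P v) = 0 ∧
      0 ≤ β.f (P v) (P v) - (1 / 2) * β.f (P v) v + (1 / 16) * β.f v v := by
    intro P k2 k3 gP kP
    have h1 := kP _ (gP.P_qq v)
    have h2 := gP.qq_sym v v
    rw [h1, β.zero_left] at h2
    have h3 := β.nonneg (P v - (1 / 4 : ℝ) • v)
    rw [β.sub_left, β.sub_right, β.sub_right, β.smul_right, β.smul, β.smul_right, β.smul,
      β.symm v (P v)] at h3
    exact ⟨h2.symm, by linarith⟩
  obtain ⟨a1, a2⟩ := low A 12 64 gA kA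
  obtain ⟨b1, b2⟩ := low B 12 64 gB kB
  obtain ⟨c1, c2⟩ := low C 13 66 gC kC
  obtain ⟨d1, d2⟩ := low D 13 66 gD kD
  have h1 := congrArg (fun u => β.f u v) (hsum v)
  simp only [β.add] at h1
  have h2 := β.nonneg v
  exact β.def_zero v (by linarith)

end main

end Pool.Agent.W5h94.Vamos
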